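import Mathlib
import Pool.Agent.H88.StefanDefs
import Pool.Agent.H88.StefanProfile
import Pool.Agent.H88.StefanHolder

/-!
# The self-similar profile of the fractional Stefan problem is smooth in the water region
-/

namespace Pool.Agent.Results.MP_0af03f_an.WaterSmooth

open Pool.Agent.H88.Stefan Set
open scoped ContDiff

/-- **Q1, full answer: `r* = ∞`.** Let `s ∈ (0,1)`, `c, T > 0`, and let the self-similar
function `h(x,t) = H(x t^(-1/(2s)))`, with `H` continuous and `L - P₂ ≤ H ≤ L + P₁`, be a very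
weak solution of the one-phase fractional Stefan problem in `ℝ × (0,T)` with the step datum
`L + P₁` on `x ≤ 0`, `L - P₂` on `x > 0`. If `H > L` on `(-∞, ξ₀)`, then
`H ∈ C^∞((-∞, ξ₀))` and the optimal exponent `r*` is `∞`. -/
theorem result (s c L T P₁ P₂ ξ₀ : ℝ) (hs : 0 < s) (hs1 : s < 1) (hc : 0 < c) (hT : 0 < T)
    (H : ℝ → ℝ) (hH : Continuous H) (hbd : ∀ ξ, H ξ ∈ Icc (L - P₂) (L + P₁))
    (hsol : IsVeryWeakSolution s c L T (stepDatum L P₁ P₂) (selfSimilar s H))
    (hwater : ∀ ξ < ξ₀, L < H ξ) :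
    ContDiffOn ℝ ∞ H (Iio ξ₀) ∧ rStar H (Iio ξ₀) = ⊤ :=
  have h := smooth_profile hs hs1 hc hT hH hbd hsol hwater
  ⟨h, rStar_of_smooth isOpen_Iio h⟩

end Pool.Agent.Results.MP_0af03f_an.WaterSmooth
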